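import Mathlib
import Pool.Agent.H.MP_5d01ce_co.A

set_option autoImplicit false

namespace Pool.Agent.H.MP_f51a11_co

open Set Submodule Module

variable {V α : Type} [Fintype V] [DecidableEq V]

def ed (F : Type) [Field F] (d : V × V × ℤ × ℤ) : V → F :=
  Pi.single d.1 (d.2.2.1 : F) + Pi.single d.2.1 (d.2.2.2 : F)

noncomputable def pr (F : Type) [Field F] (σ : V → V) (ε : V → ℤ) : (V → F) →ₗ[F] (V → F) :=
  Fintype.linearCombination F fun k => Pi.single (σ k) (ε k : F)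

def mv (σ : V → V) (ε : V → ℤ) (d : V × V × ℤ × ℤ) : V × V × ℤ × ℤ :=
  (σ d.1, σ d.2.1, d.2.2.1 * ε d.1, d.2.2.2 * ε d.2.1)

theorem pr1 (F : Type) [Field F] (σ : V → V) (ε : V → ℤ) (k : V) (a : F) :
    pr F σ ε (Pi.single k a) = Pi.single (σ k) (a * ε k) := by
  rw [pr, Fintype.linearCombination_apply_single, ← Pi.single_smul', smul_eq_mul]

theorem pr_ed (F : Type) [Field F] (σ : V → V) (ε : V → ℤ) (d : V × V × ℤ × ℤ) :
    pr F σ ε (ed F d) = ed F (mv σ ε d) := by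
  simp [ed, mv, pr1]

theorem ker1 {F : Type} [Field F] (π : (V → F) →ₗ[F] (V → F)) (y : V → F) (h1 : π y = 0)
    (h2 : ∀ k, Pi.single k 1 - π (Pi.single k 1) ∈ span F {y}) : LinearMap.ker π = span F {y} := by
  refine le_antisymm (fun x hx => ?_) (span_le.2 (by simpa using h1))
  have : x = ∑ k, x k • (Pi.single k 1 - π (Pi.single k 1)) := by
    simp only [smul_sub, Finset.sum_sub_distrib, ← map_smul, ← map_sum, ← pi_eq_sum_univ']
    rw [LinearMap.mem_ker.1 hx, sub_zero]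
  rw [this]
  exact sum_mem fun k _ => smul_mem _ _ (h2 k)

theorem step (d : V × V × ℤ × ℤ) (ha : |d.2.2.1| ≤ 1) (hb : |d.2.2.2| ≤ 1) :
    ∃ (σ : V → V) (ε : V → ℤ), (∀ k, |ε k| ≤ 1) ∧ ∀ (F : Type) [Field F],
      (∀ c : ℤ, |c| ≤ 3 → (c : F) = 0 → c = 0) → LinearMap.ker (pr F σ ε) = span F {ed F d} := by
  obtain ⟨i, j, a, b⟩ := d
  dsimp only at ha hb
  have one : ∀ (k : V) (c : ℤ), |c| ≤ 3 → ∃ (σ : V → V) (ε : V → ℤ), (∀ k, |ε k| ≤ 1) ∧
      ∀ (F : Type) [Field F], (∀ c : ℤ, |c| ≤ 3 → (c : F) = 0 → c = 0) →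
        LinearMap.ker (pr F σ ε) = span F {Pi.single k (c : F)} := by
    intro k c hc
    by_cases q : c = 0
    · exact ⟨id, 1, by simp, fun F _ _ => ker1 _ _ (by simp [q]) fun l => by simp [pr1]⟩
    refine ⟨id, fun l => if l = k then 0 else 1, fun l => by dsimp only; split_ifs <;> simp,
      fun F _ hF => ker1 _ _ (by simp [pr1]) fun l => ?_⟩
    by_cases r : l = k
    · subst r
      refine mem_span_singleton.2 ⟨(c : F)⁻¹, ?_⟩
      rw [← Pi.single_smul', smul_eq_mul, inv_mul_cancel₀ fun t => q (hF c hc t)]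
      simp [pr1]
    · simp [pr1, r]
  by_cases q1 : i = j
  · subst q1
    simpa [ed, Pi.single_add] using one i (a + b) ((abs_add_le _ _).trans (by omega))
  by_cases q2 : a = 0
  · simpa [ed, q2] using one j b (by omega)
  have a2 : a * a = 1 := by
    rw [abs_le] at ha
    obtain rfl | rfl : a = 1 ∨ a = -1 := by omega
    all_goals rfl
  refine ⟨fun l => if l = i then j else l, fun l => if l = i then -(a * b) else 1, fun l => ?_,
    fun F _ hF => ker1 _ _ ?_ fun l => ?_⟩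
  · dsimp only
    split_ifs
    · rw [abs_neg, abs_mul]
      exact mul_le_one₀ ha (abs_nonneg _) hb
    · simp
  · have : (a : F) * a = 1 := by exact_mod_cast congrArg (Int.cast (R := F)) a2
    simp [ed, pr1, Ne.symm q1, ← Pi.single_add, ← mul_assoc, this]
  · have : (a : F) * a = 1 := by exact_mod_cast congrArg (Int.cast (R := F)) a2
    by_cases r : l = i
    · subst r
      refine mem_span_singleton.2 ⟨(a : F), ?_⟩
      simp [ed, pr1, ← Pi.single_smul', this, Pi.single_neg]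
    · simp [pr1, r]

theorem piv (d : α → V × V × ℤ × ℤ) {S : Set α} (hS : S.Finite)
    (h : ∀ e ∈ S, |(d e).2.2.1| ≤ 1 ∧ |(d e).2.2.2| ≤ 1) :
    ∃ (σ : V → V) (ε : V → ℤ), (∀ k, |ε k| ≤ 1) ∧ ∀ (F : Type) [Field F],
      (∀ c : ℤ, |c| ≤ 3 → (c : F) = 0 → c = 0) →
        LinearMap.ker (pr F σ ε) = span F ((fun e => ed F (d e)) '' S) := by
  induction S, hS using Set.Finite.induction_on with
  | empty =>
    refine ⟨id, 1, by simp, fun F _ _ => ?_⟩
    have := ker1 (pr F (id : V → V) 1) 0 (map_zero _) fun l => by simp [pr1]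
    simpa using this
  | @insert e S _ _ ih =>
    obtain ⟨σ, ε, h1, h2⟩ := ih fun e he => h e (mem_insert_of_mem _ he)
    have m : ∀ (a : ℤ) k, |a| ≤ 1 → |a * ε k| ≤ 1 := fun a k t => by
      rw [abs_mul]; exact mul_le_one₀ t (abs_nonneg _) (h1 k)
    obtain ⟨σ', ε', h3, h4⟩ := step (mv σ ε (d e)) (m _ _ (h e (mem_insert _ _)).1)
      (m _ _ (h e (mem_insert _ _)).2)
    refine ⟨σ' ∘ σ, fun k => ε' (σ k) * ε k, fun k => m _ _ (h3 _), fun F _ hF => ?_⟩
    have : pr F (σ' ∘ σ) (fun k => ε' (σ k) * ε k) = (pr F σ' ε').comp (pr F σ ε) :=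
      LinearMap.pi_ext' fun k => LinearMap.ext_ring (by simp [pr1, mul_comm])
    rw [this, LinearMap.ker_comp, h4 F hF, image_insert_eq, span_insert, ← h2 F hF,
      ← comap_map_eq, map_span, image_singleton, pr_ed]

theorem ed0 {F : Type} [Field F] (hF : ∀ c : ℤ, |c| ≤ 3 → (c : F) = 0 → c = 0)
    (d : V × V × ℤ × ℤ) (ha : |d.2.2.1| ≤ 1) (hb : |d.2.2.2| ≤ 2) : ed F d = 0 ↔
      (d.1 = d.2.1 ∧ d.2.2.1 + d.2.2.2 = 0) ∨ (d.2.2.1 = 0 ∧ d.2.2.2 = 0) := by
  obtain ⟨i, j, a, b⟩ := d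
  dsimp only at ha hb ⊢
  constructor
  · intro h
    by_cases q : i = j
    · subst q
      exact Or.inl ⟨rfl, hF _ ((abs_add_le _ _).trans (by omega)) (by simpa [ed] using congrFun h i)⟩
    · exact Or.inr ⟨hF _ (by omega) (by simpa [ed, q] using congrFun h i),
        hF _ (by omega) (by simpa [ed, Ne.symm q] using congrFun h j)⟩
  · rintro (⟨rfl, h⟩ | ⟨rfl, rfl⟩)
    · simp only [ed, ← Pi.single_add, ← Int.cast_add, h]; simp
    · simp [ed]

theorem same {F K : Type} [Field F] [Field K] (hF : ∀ c : ℤ, |c| ≤ 3 → (c : F) = 0 → c = 0)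
    (hK : ∀ c : ℤ, |c| ≤ 3 → (c : K) = 0 → c = 0) (d : α → V × V × ℤ × ℤ) (x : α) {I : Set α}
    (hI : I.Finite) (h : ∀ e ∈ I, |(d e).2.2.1| ≤ 1 ∧ |(d e).2.2.2| ≤ 2 ∧
      (e ≠ x → |(d e).2.2.2| ≤ 1)) :
    LinearIndepOn F (fun e => ed F (d e)) I ↔ LinearIndepOn K (fun e => ed K (d e)) I := by
  have k : ∀ S ⊆ I, x ∉ S → ∀ e ∈ I, ed F (d e) ∈ span F ((fun e => ed F (d e)) '' S) ↔
      ed K (d e) ∈ span K ((fun e => ed K (d e)) '' S) := by
    intro S a b e he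
    obtain ⟨σ, ε, h1, h2⟩ := piv d (hI.subset a) fun e he =>
      ⟨(h e (a he)).1, (h e (a he)).2.2 (by rintro rfl; exact b he)⟩
    have m : ∀ (a c : ℤ) k, |a| ≤ c → |a * ε k| ≤ c := fun a c k t => by
      rw [abs_mul]; exact (mul_le_of_le_one_right (abs_nonneg _) (h1 k)).trans t
    rw [← h2 F hF, ← h2 K hK, LinearMap.mem_ker, LinearMap.mem_ker, pr_ed, pr_ed,
      ed0 hF _ (m _ _ _ (h e he).1) (m _ _ _ (h e he).2.1),
      ed0 hK _ (m _ _ _ (h e he).1) (m _ _ _ (h e he).2.1)]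
  have k2 : ∀ S ⊆ I, x ∉ S → (LinearIndepOn F (fun e => ed F (d e)) S ↔
      LinearIndepOn K (fun e => ed K (d e)) S) := fun S a b => by
    rw [linearIndepOn_iff_notMem_span, linearIndepOn_iff_notMem_span]
    exact forall₂_congr fun e he => (k _ (sdiff_subset.trans a) (fun t => b t.1) e (a he)).not
  by_cases q : x ∈ I
  · rw [← insert_sdiff_self_of_mem q, linearIndepOn_insert (by simp),
      linearIndepOn_insert (by simp), k2 _ sdiff_subset (by simp), k _ sdiff_subset (by simp) x q]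
  · exact k2 I subset_rfl q

end Pool.Agent.H.MP_f51a11_co
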